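import Mathlib

/-!
MP_06621a_co, Q1: the maximum number of distinct non-empty palindromic subsequences.
-/

set_option autoImplicit false

namespace Pool.Agent.Results.MP_06621a_co.MaxPalSubseq

/-- the number of distinct non-empty palindromes occurring in `w` as scattered subwords -/
noncomputable def SP {A : Type} (w : List A) : ℕ :=
  {p : List A | p ≠ [] ∧ p.Sublist w ∧ p.reverse = p}.ncard

/-- the number of distinct letters of `w` -/
noncomputable def numLetters {A : Type} (w : List A) : ℕ := {a : A | a ∈ w}.ncard

def M (n : ℕ) : ℕ := if n % 2 = 1 then 3 * 2 ^ ((n + 1) / 2 - 1) - 2 else 2 ^ (n / 2 + 1) - 2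

/-- `g n = M n + 2` on naturals -/
def gn : ℕ → ℤ
  | 0 => 2
  | 1 => 3
  | (n + 2) => 2 * gn n

/-- convex extension to all integers -/
def g (t : ℤ) : ℤ := if t < 0 then t + 2 else gn t.toNat

theorem gn_M (n : ℕ) : gn n = M n + 2 := by
  induction n using Nat.strong_induction_on with
  | _ n ih =>
    match n with
    | 0 => simp [gn, M]
    | 1 => simp [gn, M]
    | (n + 2) =>
      rw [gn, ih n (by omega)]
      unfold M
      have h1 : (n + 2) % 2 = n % 2 := by omega
      rw [h1]
      split_ifs with h
      · have h2 : (n + 2 + 1) / 2 - 1 = ((n + 1) / 2 - 1) + 1 := by omega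
        rw [h2, pow_succ]
        have h3 : 0 < 2 ^ ((n + 1) / 2 - 1) := by positivity
        omega
      · have h2 : (n + 2) / 2 + 1 = (n / 2 + 1) + 1 := by omega
        rw [h2, pow_succ]
        have h3 : 0 < 2 ^ (n / 2) := by positivity
        have h4 : 2 ^ (n / 2 + 1) = 2 * 2 ^ (n / 2) := by ring
        omega

theorem gn_diff (n : ℕ) : gn (n + 1) - gn n ≤ gn (n + 2) - gn (n + 1) ∧ 1 ≤ gn (n + 1) - gn n := by
  induction n using Nat.strong_induction_on with
  | _ n ih =>
    match n with
    | 0 => simp [gn]
    | 1 => simp [gn]
    | (n + 2) =>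
      have := ih n (by omega)
      have e1 : gn (n + 2) = 2 * gn n := rfl
      have e2 : gn (n + 2 + 1) = 2 * gn (n + 1) := rfl
      have e3 : gn (n + 2 + 2) = 2 * gn (n + 2) := rfl
      rw [e2, e3]
      omega

theorem g_nat (n : ℕ) : g (n : ℤ) = gn n := by
  unfold g
  rw [if_neg (by omega), Int.toNat_natCast]

theorem g_diff (t : ℤ) : g (t + 1) - g t ≤ g (t + 2) - g (t + 1) ∧ 1 ≤ g (t + 1) - g t := by
  rcases lt_or_ge t 0 with h | h
  · rcases lt_or_ge t (-2) with h2 | h2
    · simp only [g, if_pos h, if_pos (show t + 1 < 0 by omega), if_pos (show t + 2 < 0 by omega)]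
      omega
    · have : t = -1 ∨ t = -2 := by omega
      rcases this with rfl | rfl
      · simp [g, gn]
      · simp [g, gn]
  · obtain ⟨n, rfl⟩ := Int.eq_ofNat_of_zero_le h
    have e0 : g (n : ℤ) = gn n := g_nat n
    have e1 : g ((n : ℤ) + 1) = gn (n + 1) := by
      have : (n : ℤ) + 1 = ((n + 1 : ℕ) : ℤ) := by push_cast; ring
      rw [this, g_nat]
    have e2 : g ((n : ℤ) + 2) = gn (n + 2) := by
      have : (n : ℤ) + 2 = ((n + 2 : ℕ) : ℤ) := by push_cast; ring
      rw [this, g_nat]
    rw [e0, e1, e2]
    exact gn_diff n

theorem g_mono {s t : ℤ} (h : s ≤ t) : g s ≤ g t := by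
  obtain ⟨k, hk⟩ := Int.eq_ofNat_of_zero_le (show 0 ≤ t - s by omega)
  have : t = s + k := by omega
  subst this
  clear h hk
  induction k with
  | zero => simp
  | succ k ih =>
    have := (g_diff (s + k)).2
    have e : s + ((k + 1 : ℕ) : ℤ) = s + k + 1 := by push_cast; ring
    rw [e]
    omega

theorem g_diff_mono {s t : ℤ} (h : s ≤ t) : g (s + 1) - g s ≤ g (t + 1) - g t := by
  obtain ⟨k, hk⟩ := Int.eq_ofNat_of_zero_le (show 0 ≤ t - s by omega)
  have : t = s + k := by omega
  subst this
  clear h hk
  induction k with
  | zero => simp
  | succ k ih =>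
    have := (g_diff (s + k)).1
    have e : s + ((k + 1 : ℕ) : ℤ) = s + k + 1 := by push_cast; ring
    have e2 : s + (k : ℤ) + 1 + 1 = s + k + 2 := by ring
    rw [e, e2]
    omega

theorem g_shift {s t : ℤ} (h : s ≤ t) (k : ℕ) : g (s + k) - g s ≤ g (t + k) - g t := by
  induction k with
  | zero => simp
  | succ k ih =>
    have := g_diff_mono (show s + (k : ℤ) ≤ t + k by omega)
    have e : s + ((k + 1 : ℕ) : ℤ) = s + k + 1 := by push_cast; ring
    have e2 : t + ((k + 1 : ℕ) : ℤ) = t + k + 1 := by push_cast; ring
    rw [e, e2]
    omega

theorem g_convex {x y z t : ℤ} (hx : x ≤ z) (hy : y ≤ z) (h : x + y = z + t) :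
    g x + g y ≤ g z + g t := by
  obtain ⟨k, hk⟩ := Int.eq_ofNat_of_zero_le (show 0 ≤ z - x by omega)
  have h1 : z = x + k := by omega
  have h2 : y = t + k := by omega
  have := g_shift (show t ≤ x by omega) k
  rw [← h1, ← h2] at this
  omega

theorem sum_le {I : Type} [DecidableEq I] (k : ℕ) : ∀ (S : Finset I) (p q : I → ℤ) (a b : ℤ),
    S.card = k → Set.InjOn p S → Set.InjOn q S → (∀ i ∈ S, a ≤ p i) → (∀ i ∈ S, q i ≤ b) →
    ∑ i ∈ S, g (q i - p i - 1) ≤ ∑ r ∈ Finset.range k, g (b - a - 1 - 2 * r) := by
  induction k with
  | zero =>
    intro S p q a b hS _ _ _ _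
    rw [Finset.card_eq_zero] at hS
    subst hS
    simp
  | succ k ih =>
    intro S p q a b hS hp hq ha hb
    have hne : S.Nonempty := by
      rw [← Finset.card_pos]; omega
    obtain ⟨A, hA, hAmin⟩ := S.exists_min_image p hne
    obtain ⟨B, hB, hBmax⟩ := S.exists_max_image q hne
    set q' : I → ℤ := fun i => if i = B then q A else q i with hq'
    have hcard : (S.erase A).card = k := by rw [Finset.card_erase_of_mem hA]; omega
    have hrest := ih (S.erase A) p q' (a + 1) (b - 1) hcard
      (hp.mono (by intro i hi; exact Finset.mem_of_mem_erase hi))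
      (by
        intro i hi j hj hij
        have hi1 := Finset.mem_of_mem_erase hi
        have hi2 := Finset.ne_of_mem_erase hi
        have hj1 := Finset.mem_of_mem_erase hj
        have hj2 := Finset.ne_of_mem_erase hj
        simp only [hq'] at hij
        split_ifs at hij with h1 h2 h2
        · rw [h1, h2]
        · exact absurd (hq hA hj1 hij).symm hj2
        · exact absurd (hq hi1 hA hij) hi2
        · exact hq hi1 hj1 hij)
      (by
        intro i hi
        have hi1 := Finset.mem_of_mem_erase hi
        have hi2 := Finset.ne_of_mem_erase hi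
        have h1 := hAmin i hi1
        have h2 : p A ≠ p i := fun h => hi2 (hp hA hi1 h).symm
        have h3 := ha A hA
        omega)
      (by
        intro i hi
        have hi1 := Finset.mem_of_mem_erase hi
        have hi2 := Finset.ne_of_mem_erase hi
        have h3 := hb B hB
        simp only [hq']
        split_ifs with h
        · have h4 : A ≠ B := fun h5 => hi2 (h.trans h5.symm)
          have h1 := hBmax A hA
          have h2 : q A ≠ q B := fun h => h4 (hq hA hB h)
          omega
        · have h1 := hBmax i hi1
          have h2 : q i ≠ q B := fun h5 => h (hq hi1 hB h5)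
          omega)
    have hmain : ∑ i ∈ S, g (q i - p i - 1) ≤
        g (q B - p A - 1) + ∑ i ∈ S.erase A, g (q' i - p i - 1) := by
      rw [← Finset.add_sum_erase S _ hA]
      by_cases hAB : A = B
      · subst hAB
        apply add_le_add_right
        apply le_of_eq
        apply Finset.sum_congr rfl
        intro i hi
        have hi2 := Finset.ne_of_mem_erase hi
        simp only [hq', if_neg hi2]
      · have hB' : B ∈ S.erase A := Finset.mem_erase.2 ⟨fun h => hAB h.symm, hB⟩
        rw [← Finset.add_sum_erase (S.erase A) _ hB', ← Finset.add_sum_erase (S.erase A) _ hB']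
        have e : ∑ i ∈ (S.erase A).erase B, g (q' i - p i - 1) =
            ∑ i ∈ (S.erase A).erase B, g (q i - p i - 1) := by
          apply Finset.sum_congr rfl
          intro i hi
          have hi2 := Finset.ne_of_mem_erase hi
          simp only [hq', if_neg hi2]
        rw [e]
        have e2 : q' B = q A := by simp [hq']
        rw [e2]
        have h1 := hAmin B hB
        have h2 := hBmax A hA
        have := g_convex (x := q A - p A - 1) (y := q B - p B - 1) (z := q B - p A - 1)
          (t := q A - p B - 1) (by omega) (by omega) (by ring)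
        linarith
    have hfirst : g (q B - p A - 1) ≤ g (b - a - 1) := by
      apply g_mono
      have h1 := ha A hA
      have h2 := hb B hB
      omega
    rw [Finset.sum_range_succ']
    have e3 : ∑ r ∈ Finset.range k, g (b - 1 - (a + 1) - 1 - 2 * r) =
        ∑ r ∈ Finset.range k, g (b - a - 1 - 2 * ((r + 1 : ℕ) : ℤ)) := by
      apply Finset.sum_congr rfl
      intro r _
      congr 1
      push_cast
      ring
    rw [e3] at hrest
    have e4 : b - a - 1 - 2 * ((0 : ℕ) : ℤ) = b - a - 1 := by push_cast; ring
    rw [e4]
    linarith

theorem g_two (t : ℤ) (h : 0 ≤ t) : g (t + 2) = 2 * g t := by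
  obtain ⟨n, rfl⟩ := Int.eq_ofNat_of_zero_le h
  have : (n : ℤ) + 2 = ((n + 2 : ℕ) : ℤ) := by push_cast; ring
  rw [this, g_nat, g_nat]
  rfl

theorem telescope (n : ℤ) (k : ℕ) (h : 2 * (k : ℤ) ≤ n) :
    ∑ r ∈ Finset.range k, g (n - 2 - 2 * r) = g n - g (n - 2 * k) := by
  induction k with
  | zero => simp
  | succ k ih =>
    rw [Finset.sum_range_succ, ih (by push_cast at h; omega)]
    have := g_two (n - 2 * (k + 1)) (by push_cast at h; omega)
    have e1 : n - 2 * ((k : ℤ) + 1) + 2 = n - 2 * k := by ring
    have e2 : n - 2 - 2 * (k : ℤ) = n - 2 * (k + 1) := by ring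
    rw [e1] at this
    rw [e2]
    push_cast
    linarith

theorem g_ge (t : ℤ) : t + 2 ≤ g t := by
  rcases lt_or_ge t 0 with h | h
  · simp [g, h]
  · obtain ⟨n, rfl⟩ := Int.eq_ofNat_of_zero_le h
    have := g_diff_mono (s := 0) (t := n) (by omega)
    clear this
    induction n with
    | zero => simp [g, gn]
    | succ n ih =>
      have := (g_diff n).2
      have := ih (by omega)
      push_cast
      omega

theorem g_eq_imp (t : ℤ) (h : g t = t + 2) : t ≤ 2 := by
  by_contra h3
  push Not at h3
  obtain ⟨n, rfl⟩ := Int.eq_ofNat_of_zero_le (show 0 ≤ t by omega)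
  have h1 := g_diff_mono (s := 2) (t := (n : ℤ) - 1) (by omega)
  have e2 : g 3 = 6 := by simp [g, gn]
  have e1 : g 2 = 4 := by simp [g, gn]
  have h2 := g_ge ((n : ℤ) - 1)
  have e3 : (n : ℤ) - 1 + 1 = n := by ring
  have e4 : (2 : ℤ) + 1 = 3 := by norm_num
  rw [e3, e4] at h1
  omega

/-- finset version -/
def PSf {A : Type} [DecidableEq A] (w : List A) : Finset (List A) :=
  w.sublists.toFinset.filter fun p => p ≠ [] ∧ p.reverse = p

theorem mem_PSf {A : Type} [DecidableEq A] (w p : List A) :
    p ∈ PSf w ↔ p ≠ [] ∧ p.Sublist w ∧ p.reverse = p := by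
  simp only [PSf, Finset.mem_filter, List.mem_toFinset, List.mem_sublists]
  tauto

theorem SP_eq {A : Type} [DecidableEq A] (w : List A) : SP w = (PSf w).card := by
  unfold SP
  have : {p : List A | p ≠ [] ∧ p.Sublist w ∧ p.reverse = p} = (PSf w : Set (List A)) := by
    ext p
    simp only [Set.mem_ofPred_eq, Finset.mem_coe, mem_PSf]
  rw [this, Set.ncard_coe_finset]

theorem numLetters_eq {A : Type} [DecidableEq A] (w : List A) :
    numLetters w = w.toFinset.card := by
  unfold numLetters
  have : {a : A | a ∈ w} = (w.toFinset : Set A) := by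
    ext p
    simp
  rw [this, Set.ncard_coe_finset]

theorem sublist_first {A : Type} (a : A) (x y p : List A) (hx : a ∉ x)
    (h : (a :: p).Sublist (x ++ a :: y)) : p.Sublist y := by
  induction x with
  | nil => simpa using h
  | cons b x ih =>
    simp only [List.mem_cons, not_or] at hx
    rw [List.cons_append, List.cons_sublist_cons'] at h
    rcases h with h | ⟨h, _⟩
    · exact ih hx.2 h
    · exact absurd h hx.1

theorem sublist_last {A : Type} (a : A) (z t p : List A) (ht : a ∉ t)
    (h : (p ++ [a]).Sublist (z ++ a :: t)) : p.Sublist z := by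
  have h1 := h.reverse
  simp only [List.reverse_append, List.reverse_cons, List.reverse_nil, List.nil_append,
    List.cons_append, List.append_assoc] at h1
  have h2 := sublist_first a t.reverse z.reverse p.reverse (by simpa using ht) h1
  simpa using h2.reverse

theorem split_rep {A : Type} [DecidableEq A] (a : A) (w : List A) (h : 2 ≤ w.count a) :
    ∃ x z t : List A, w = x ++ a :: (z ++ a :: t) ∧ a ∉ x ∧ a ∉ t := by
  have h1 : a ∈ w := List.count_pos_iff.1 (by omega)
  obtain ⟨x, y, rfl, hx⟩ := List.eq_append_cons_of_mem h1
  have h2 : 1 ≤ y.count a := by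
    rw [List.count_append, List.count_cons_self, List.count_eq_zero_of_not_mem hx] at h
    omega
  have h3 : a ∈ y.reverse := by
    rw [List.mem_reverse]
    exact List.count_pos_iff.1 (by omega)
  obtain ⟨t, z, hz, ht⟩ := List.eq_append_cons_of_mem h3
  refine ⟨x, z.reverse, t.reverse, ?_, hx, by simpa using ht⟩
  have : y = (t ++ a :: z).reverse := by rw [← hz, List.reverse_reverse]
  rw [this]
  simp

theorem pal_cases {A : Type} (p : List A) (hp : p ≠ []) (hr : p.reverse = p) :
    (∃ a, p = [a]) ∨ ∃ a q, p = a :: (q ++ [a]) ∧ q.reverse = q := by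
  match p, hp with
  | [a], _ => exact Or.inl ⟨a, rfl⟩
  | a :: b :: l, _ =>
    right
    obtain ⟨q, c, hq⟩ : ∃ q c, b :: l = q ++ [c] :=
      ⟨(b :: l).dropLast, (b :: l).getLast (by simp), (List.dropLast_append_getLast _).symm⟩
    rw [hq] at hr ⊢
    simp only [List.reverse_cons, List.reverse_append, List.reverse_nil, List.nil_append,
      List.cons_append, List.cons.injEq] at hr
    obtain ⟨h1, h2⟩ := hr
    subst h1
    refine ⟨c, q, rfl, ?_⟩
    exact List.append_cancel_right h2

theorem main_bound {A : Type} [DecidableEq A] (n : ℕ) : ∀ w : List A, w.length = n →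
    ∃ s R : ℕ, w.toFinset.card = s + R ∧ s + 2 * R ≤ n ∧
      (SP w : ℤ) + 2 ≤ s + 2 + g n - g (n - 2 * R) := by
  induction n using Nat.strong_induction_on with
  | _ n ih =>
    intro w hw
    have hbd : ∀ v : List A, v.length < n → (SP v : ℤ) + 2 ≤ g v.length := by
      intro v hv
      obtain ⟨s, R, h1, h2, h3⟩ := ih v.length hv v rfl
      have := g_ge ((v.length : ℤ) - 2 * R)
      omega
    set Rep := w.toFinset.filter fun a => 2 ≤ w.count a with hRep
    have hch : ∀ a : A, ∃ x z t : List A, a ∈ Rep → (w = x ++ a :: (z ++ a :: t) ∧ a ∉ x ∧ a ∉ t) := by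
      intro a
      by_cases h : a ∈ Rep
      · obtain ⟨x, z, t, h1⟩ := split_rep a w (Finset.mem_filter.1 h).2
        exact ⟨x, z, t, fun _ => h1⟩
      · exact ⟨[], [], [], fun h' => absurd h' h⟩
    choose X Z Tl hXZT using hch
    have hsub : PSf w ⊆ (w.toFinset.image fun a => [a]) ∪
        Rep.biUnion fun a => (insert [] (PSf (Z a))).image fun p => a :: (p ++ [a]) := by
      intro p hp
      rw [mem_PSf] at hp
      obtain ⟨h1, h2, h3⟩ := hp
      rw [Finset.mem_union]
      rcases pal_cases p h1 h3 with ⟨a, rfl⟩ | ⟨a, q, rfl, hq⟩
      · left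
        rw [Finset.mem_image]
        exact ⟨a, by simpa using h2, rfl⟩
      · right
        have hcount : 2 ≤ w.count a := by
          have := h2.count_le a
          simp only [List.count_cons_self, List.count_append, List.count_nil] at this
          omega
        have haR : a ∈ Rep := by
          rw [hRep, Finset.mem_filter]
          exact ⟨by rw [List.mem_toFinset]; exact List.count_pos_iff.1 (by omega), hcount⟩
        obtain ⟨e, hx, ht⟩ := hXZT a haR
        rw [e] at h2
        have h4 := sublist_last _ _ _ _ ht (sublist_first _ _ _ _ hx h2)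
        rw [Finset.mem_biUnion]
        refine ⟨a, haR, ?_⟩
        rw [Finset.mem_image]
        refine ⟨q, ?_, rfl⟩
        rw [Finset.mem_insert]
        by_cases hq0 : q = []
        · left; exact hq0
        · right
          rw [mem_PSf]
          exact ⟨hq0, h4, hq⟩
    have hcard : (PSf w).card ≤ w.toFinset.card + ∑ a ∈ Rep, (SP (Z a) + 1) := by
      refine (Finset.card_le_card hsub).trans ((Finset.card_union_le _ _).trans ?_)
      apply add_le_add
      · exact Finset.card_image_le
      · refine Finset.card_biUnion_le.trans (Finset.sum_le_sum ?_)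
        intro a _
        refine Finset.card_image_le.trans ((Finset.card_insert_le _ _).trans ?_)
        rw [SP_eq]
    have hRsub : Rep ⊆ w.toFinset := Finset.filter_subset _ _
    have hRcard := Finset.card_le_card hRsub
    refine ⟨w.toFinset.card - Rep.card, Rep.card, by omega, ?_, ?_⟩
    · -- counting letters
      have h1 : w.length = ∑ a ∈ w.toFinset, w.count a := by
        rw [List.sum_toFinset_count_eq_length]
      have h2 : ∑ a ∈ w.toFinset, (1 + if 2 ≤ w.count a then 1 else 0) ≤
          ∑ a ∈ w.toFinset, w.count a := by
        apply Finset.sum_le_sum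
        intro a ha
        rw [List.mem_toFinset] at ha
        have := List.count_pos_iff.2 ha
        split_ifs <;> omega
      rw [Finset.sum_add_distrib, Finset.sum_ite, ← hRep] at h2
      simp only [Finset.sum_const, smul_eq_mul, mul_one, mul_zero, add_zero] at h2
      omega
    · have hlen : ∀ a ∈ Rep, (X a).length + (Z a).length + (Tl a).length + 2 = n := by
        intro a ha
        have := congrArg List.length (hXZT a ha).1
        simp only [List.length_append, List.length_cons] at this
        omega
      have hsum := sum_le Rep.card Rep (fun a => ((X a).length : ℤ))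
        (fun a => ((X a).length : ℤ) + (Z a).length + 1) 0 ((n : ℤ) - 1) rfl
        (by
          intro a ha b hb hab
          simp only [Nat.cast_inj] at hab
          have h1 := (hXZT a ha).1
          have h2 := (hXZT b hb).1
          have e1 : w[(X a).length]? = some a := by rw [h1]; simp
          have e2 : w[(X b).length]? = some b := by rw [h2]; simp
          rw [hab, e2] at e1
          exact (Option.some.inj e1).symm)
        (by
          intro a ha b hb hab
          have hab' : ((X a).length : ℤ) + (Z a).length + 1 = (X b).length + (Z b).length + 1 := hab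
          have h1 := (hXZT a ha).1
          have h2 := (hXZT b hb).1
          have e1 : w[(X a).length + ((Z a).length + 1)]? = some a := by
            conv_lhs => rw [h1]
            rw [List.getElem?_append_right (by omega)]
            have : (X a).length + ((Z a).length + 1) - (X a).length = (Z a).length + 1 := by omega
            rw [this, List.getElem?_cons_succ]
            simp
          have e2 : w[(X b).length + ((Z b).length + 1)]? = some b := by
            conv_lhs => rw [h2]
            rw [List.getElem?_append_right (by omega)]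
            have : (X b).length + ((Z b).length + 1) - (X b).length = (Z b).length + 1 := by omega
            rw [this, List.getElem?_cons_succ]
            simp
          have e3 : (X a).length + ((Z a).length + 1) = (X b).length + ((Z b).length + 1) := by omega
          rw [e3, e2] at e1
          exact (Option.some.inj e1).symm)
        (by intro a _; simp)
        (by
          intro a ha
          have h11 := hlen a ha
          have h12 : ((X a).length : ℤ) + (Z a).length + 1 ≤ (n : ℤ) - 1 := by omega
          exact h12)
      have e5 : ∑ r ∈ Finset.range Rep.card, g ((n : ℤ) - 1 - 0 - 1 - 2 * r) =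
          ∑ r ∈ Finset.range Rep.card, g ((n : ℤ) - 2 - 2 * r) := by
        apply Finset.sum_congr rfl
        intro r _
        congr 1
        ring
      rw [e5] at hsum
      have h2R : 2 * (Rep.card : ℤ) ≤ n := by
        have h1 : w.length = ∑ a ∈ w.toFinset, w.count a := by
          rw [List.sum_toFinset_count_eq_length]
        have h2 : ∑ a ∈ Rep, 2 ≤ ∑ a ∈ w.toFinset, w.count a := by
          refine (Finset.sum_le_sum fun a ha => (Finset.mem_filter.1 ha).2).trans ?_
          exact Finset.sum_le_sum_of_subset hRsub
        simp only [Finset.sum_const, smul_eq_mul] at h2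
        omega
      rw [telescope n Rep.card h2R] at hsum
      have h6 : ∑ a ∈ Rep, ((SP (Z a) : ℤ) + 1) ≤
          ∑ a ∈ Rep, (g ((X a).length + (Z a).length + 1 - (X a).length - 1) - 1) := by
        apply Finset.sum_le_sum
        intro a ha
        have h7 := hlen a ha
        have h8 := hbd (Z a) (by omega)
        have e6 : ((X a).length : ℤ) + (Z a).length + 1 - (X a).length - 1 = (Z a).length := by ring
        rw [e6]
        omega
      rw [Finset.sum_sub_distrib] at h6
      simp only [Finset.sum_const, nsmul_eq_mul, mul_one] at h6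
      rw [SP_eq]
      have h9 : ((PSf w).card : ℤ) ≤ w.toFinset.card + ∑ a ∈ Rep, ((SP (Z a) : ℤ) + 1) := by
        exact_mod_cast hcard
      have h10 : ((w.toFinset.card - Rep.card : ℕ) : ℤ) = w.toFinset.card - Rep.card := by omega
      rw [h10]
      linarith

/-- nested words `m ... 1 0 0 1 ... m` (with or without central letter) -/
def nest : ℕ → List ℕ
  | 0 => []
  | 1 => [0]
  | (n + 2) => (n + 2) :: (nest n ++ [n + 2])

theorem nest_le (n : ℕ) : ∀ a ∈ nest n, a ≤ n := by
  induction n using Nat.strong_induction_on with
  | _ n ih =>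
    match n with
    | 0 => simp [nest]
    | 1 => simp [nest]
    | (n + 2) =>
      intro a ha
      simp only [nest, List.mem_cons, List.mem_append, List.not_mem_nil, or_false] at ha
      rcases ha with h | h | h
      · omega
      · have := ih n (by omega) a h
        omega
      · omega

theorem nest_length (n : ℕ) : (nest n).length = n := by
  induction n using Nat.strong_induction_on with
  | _ n ih =>
    match n with
    | 0 => simp [nest]
    | 1 => simp [nest]
    | (n + 2) =>
      have := ih n (by omega)
      simp only [nest, List.length_cons, List.length_append, List.length_nil, this]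

theorem nest_SP (n : ℕ) : g n ≤ (SP (nest n) : ℤ) + 2 := by
  induction n using Nat.strong_induction_on with
  | _ n ih =>
    match n with
    | 0 => simp [g, gn]
    | 1 =>
      rw [SP_eq]
      decide
    | (n + 2) =>
      have h1 := ih n (by omega)
      have hg : g ((n + 2 : ℕ) : ℤ) = 2 * g n := by
        push_cast
        exact g_two _ (by omega)
      rw [hg]
      rw [SP_eq] at h1 ⊢
      set c := n + 2 with hc
      have hnot : ∀ p : List ℕ, p.Sublist (nest n) → c ∉ p := by
        intro p hp hcp
        have := nest_le n c (hp.subset hcp)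
        omega
      have hsub : PSf (nest n) ∪ (insert [c] ((insert [] (PSf (nest n))).image
          fun p => c :: (p ++ [c]))) ⊆ PSf (nest c) := by
        intro p hp
        rw [Finset.mem_union, Finset.mem_insert, Finset.mem_image] at hp
        rw [mem_PSf]
        have hn : nest c = c :: (nest n ++ [c]) := rfl
        rw [hn]
        rcases hp with hp | rfl | ⟨q, hq, rfl⟩
        · rw [mem_PSf] at hp
          refine ⟨hp.1, ?_, hp.2.2⟩
          exact (hp.2.1.trans (List.sublist_append_left _ _)).cons _
        · refine ⟨by simp, ?_, by simp⟩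
          simp
        · rw [Finset.mem_insert, mem_PSf] at hq
          refine ⟨by simp, ?_, ?_⟩
          · rw [List.cons_sublist_cons]
            apply List.Sublist.append_right
            rcases hq with rfl | hq
            · simp
            · exact hq.2.1
          · rcases hq with rfl | hq
            · simp
            · simp [hq.2.2]
      have hcard := Finset.card_le_card hsub
      rw [Finset.card_union_of_disjoint, Finset.card_insert_of_notMem,
        Finset.card_image_of_injective, Finset.card_insert_of_notMem] at hcard
      · omega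
      · rw [mem_PSf]; simp
      · intro p q hpq
        simp only [List.cons.injEq, true_and] at hpq
        exact List.append_cancel_right hpq
      · rw [Finset.mem_image]
        rintro ⟨q, -, hq⟩
        have := congrArg List.length hq
        simp at this
      · rw [Finset.disjoint_left]
        intro p hp hp2
        rw [mem_PSf] at hp
        apply hnot p hp.2.1
        rw [Finset.mem_insert, Finset.mem_image] at hp2
        rcases hp2 with rfl | ⟨q, -, rfl⟩ <;> simp

/-- For words over any alphabet `SP w ≤ M |w|`, with equality only if the number `q` of distinct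
letters is `⌈n/2⌉` (`n` odd), `n/2` or `n/2+1` (`n` even); and `M n` is the maximum of `SP` over
words of length `n`. -/
theorem result :
    (∀ n : ℕ, 1 ≤ n → IsGreatest {k : ℕ | ∃ w : List ℕ, w.length = n ∧ SP w = k} (M n)) ∧
    (∀ (A : Type) (w : List A), SP w ≤ M w.length) ∧
    (∀ (A : Type) (w : List A), SP w = M w.length →
      (Odd w.length → numLetters w = (w.length + 1) / 2) ∧
      (Even w.length → numLetters w = w.length / 2 ∨ numLetters w = w.length / 2 + 1)) ∧
    (∀ (A : Type) (w : List A), 2 * numLetters w < w.length → SP w < M w.length) := by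
  have hgM : ∀ n : ℕ, g n = (M n : ℤ) + 2 := by
    intro n
    rw [← gn_M]
    simp [g]
  have hle : ∀ (A : Type) (w : List A), SP w ≤ M w.length := by
    intro A w
    classical
    obtain ⟨s, R, h1, h2, h3⟩ := main_bound w.length w rfl
    have h4 := g_ge ((w.length : ℤ) - 2 * R)
    have h5 := hgM w.length
    omega
  have heq : ∀ (A : Type) (w : List A), SP w = M w.length →
      (Odd w.length → numLetters w = (w.length + 1) / 2) ∧
      (Even w.length → numLetters w = w.length / 2 ∨ numLetters w = w.length / 2 + 1) := by
    intro A w hw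
    classical
    obtain ⟨s, R, h1, h2, h3⟩ := main_bound w.length w rfl
    have h4 := g_ge ((w.length : ℤ) - 2 * R)
    have h5 := hgM w.length
    rw [numLetters_eq, h1]
    have h6 : g ((w.length : ℤ) - 2 * R) = (w.length : ℤ) - 2 * R + 2 := by omega
    have h7 := g_eq_imp _ h6
    have h8 : (w.length : ℤ) - 2 * R ≤ s := by omega
    constructor
    · intro ho
      obtain ⟨k, hk⟩ := ho
      omega
    · intro he
      obtain ⟨k, hk⟩ := he
      omega
  refine ⟨?_, hle, heq, ?_⟩
  · intro n _
    constructor
    · refine ⟨nest n, nest_length n, ?_⟩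
      apply le_antisymm
      · have := hle ℕ (nest n)
        rwa [nest_length] at this
      · have h1 := nest_SP n
        have h2 := hgM n
        omega
    · rintro k ⟨w, hw, rfl⟩
      rw [← hw]
      exact hle ℕ w
  · intro A w hq
    apply lt_of_le_of_ne (hle A w)
    intro h
    obtain ⟨h1, h2⟩ := heq A w h
    rcases Nat.even_or_odd w.length with he | ho
    · have := h2 he
      obtain ⟨k, hk⟩ := he
      omega
    · have := h1 ho
      omega

end Pool.Agent.Results.MP_06621a_co.MaxPalSubseq
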